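import Pool.Agent.Helper23.XT.Basic

/-!
# XT: continuity at the cut
-/

namespace Pool.Agent.Helper90.XT

open MvPolynomial Pool.Agent.Helper23.XT

variable {K Γ Γ' : Type*} [Field K] [LinearOrderedCommGroupWithZero Γ]
  [LinearOrderedCommGroupWithZero Γ'] {v : Valuation K Γ} {w : Valuation K Γ'}

/-- the homogenisation of a polynomial without root in the residue field of `w` -/
private theorem val_form {P : Polynomial K} (hP : P.Monic) (hd : 0 < P.natDegree)
    (hc : ∀ i, w (P.coeff i) ≤ 1) (hroot : ∀ x, w x ≤ 1 → w (P.eval x) = 1) (x y : K) :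
    w (∑ i ∈ Finset.range (P.natDegree + 1), P.coeff i * x ^ i * y ^ (P.natDegree - i)) =
      (max (w x) (w y)) ^ P.natDegree := by
  rcases le_or_gt (w x) (w y) with h | h
  · rw [max_eq_right h]
    rcases eq_or_ne y 0 with rfl | hy
    · have hx : x = 0 := by
        rw [map_zero, le_zero_iff, Valuation.zero_iff] at h
        exact h
      subst hx
      rw [map_zero, zero_pow hd.ne', Valuation.zero_iff]
      refine Finset.sum_eq_zero fun i hi => ?_
      rcases Nat.eq_zero_or_pos i with h0 | h0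
      · subst h0
        rw [Nat.sub_zero, zero_pow hd.ne', mul_zero]
      · rw [zero_pow h0.ne', mul_zero, zero_mul]
    · have h1 : ∑ i ∈ Finset.range (P.natDegree + 1), P.coeff i * x ^ i * y ^ (P.natDegree - i) =
          y ^ P.natDegree * P.eval (x / y) := by
        rw [Polynomial.eval_eq_sum_range, Finset.mul_sum]
        refine Finset.sum_congr rfl fun i hi => ?_
        have hi' : i ≤ P.natDegree := Nat.lt_succ_iff.1 (Finset.mem_range.1 hi)
        have h2 : y ^ P.natDegree = y ^ (P.natDegree - i) * y ^ i := by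
          rw [← pow_add, Nat.sub_add_cancel hi']
        rw [h2, div_pow]
        field_simp
      rw [h1, map_mul, map_pow, hroot, mul_one]
      rw [map_div₀]
      exact div_le_one_of_le₀ h zero_le
  · rw [max_eq_left h.le]
    have hx : x ≠ 0 := by
      rintro rfl
      rw [map_zero] at h
      exact not_lt_zero h
    rw [Finset.sum_range_succ, Nat.sub_self, pow_zero, mul_one]
    have h1 : P.coeff P.natDegree = 1 := hP
    rw [h1, one_mul]
    have hxd : w (x ^ P.natDegree) ≠ 0 := (Valuation.ne_zero_iff w).2 (pow_ne_zero _ hx)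
    have h2 : w (∑ i ∈ Finset.range P.natDegree,
        P.coeff i * x ^ i * y ^ (P.natDegree - i)) < w (x ^ P.natDegree) := by
      refine Valuation.map_sum_lt w hxd fun i hi => ?_
      have hi' : i < P.natDegree := Finset.mem_range.1 hi
      rw [map_mul, map_mul, map_pow, map_pow, map_pow]
      have h3 : w x ^ P.natDegree = w x ^ i * w x ^ (P.natDegree - i) := by
        rw [← pow_add, Nat.add_sub_cancel' hi'.le]
      rw [h3]
      have h4 : w y ^ (P.natDegree - i) < w x ^ (P.natDegree - i) :=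
        pow_lt_pow_left₀ h zero_le (Nat.sub_pos_of_lt hi').ne'
      have h5 : w (P.coeff i) * w x ^ i ≤ w x ^ i := mul_le_of_le_one_left' (hc i)
      have h6 : 0 < w x ^ i := pow_pos (zero_lt_iff.2 ((Valuation.ne_zero_iff w).2 hx)) i
      calc w (P.coeff i) * w x ^ i * w y ^ (P.natDegree - i)
          ≤ w x ^ i * w y ^ (P.natDegree - i) := mul_le_mul_left h5 _
        _ < w x ^ i * w x ^ (P.natDegree - i) := mul_lt_mul_of_pos_left h4 h6
    rw [Valuation.map_add_eq_of_lt_right w h2, map_pow]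

private theorem eval_aeval' {σ τ : Type*} (g : σ → MvPolynomial τ K) (f : MvPolynomial σ K)
    (b : τ → K) : eval b (aeval g f) = eval (fun i => eval b (g i)) f := by
  induction f using MvPolynomial.induction_on with
  | C a => simp [algebraMap_eq]
  | add p q hp hq => rw [map_add, map_add, hp, hq, map_add]
  | mul_X p i hp => rw [map_mul, map_mul, hp, map_mul, aeval_X, eval_X]

/-- continuity at the cut -/
theorem exists_radius (hv : Extremal v) (hvw : ∀ x, v x ≤ 1 → w x ≤ 1)
    (hdiv : ∀ c : K, c ≠ 0 → ∀ m : ℕ, 0 < m → ∃ x, w x ^ m = w c)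
    (hnt : ∃ x, 1 < w x) {P : Polynomial K} (hP : P.Monic) (hd : 0 < P.natDegree)
    (hc : ∀ i, w (P.coeff i) ≤ 1) (hroot : ∀ x, w x ≤ 1 → w (P.eval x) = 1)
    {n : ℕ} (f : MvPolynomial (Fin n) K) {g : K} (hg : g ≠ 0)
    (hlow : ∀ a : Fin n → K, (∀ i, w (a i) ≤ 1) → w g < w (eval a f)) :
    ∃ r : K, 1 < w r ∧ ∀ a : Fin n → K, (∀ i, w (a i) ≤ w r) → w g < w (eval a f) := by
  classical
  obtain ⟨x₀, hx₀⟩ := hnt
  have hx₀0 : x₀ ≠ 0 := by
    rintro rfl
    rw [map_zero] at hx₀
    exact absurd hx₀ (not_lt.2 zero_le_one)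
  -- `e`
  obtain ⟨e, he0, he1⟩ : ∃ e : K, e ≠ 0 ∧ w e < 1 := by
    refine ⟨x₀⁻¹, inv_ne_zero hx₀0, ?_⟩
    rw [map_inv₀]
    exact inv_lt_one_of_one_lt₀ hx₀
  have hwe0 : w e ≠ 0 := (Valuation.ne_zero_iff w).2 he0
  have hwg0 : w g ≠ 0 := (Valuation.ne_zero_iff w).2 hg
  have hwg : 0 < w g := zero_lt_iff.2 hwg0
  -- the polynomial
  let F1 : MvPolynomial (Option (Fin n)) K :=
    aeval (fun i : Fin n => X (some i) * X none * C e⁻¹ : Fin n → MvPolynomial (Option (Fin n)) K) f
  let Y1 : MvPolynomial (Option (Fin n)) K := C (g * e⁻¹) * X none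
  let G : MvPolynomial (Option (Fin n)) K :=
    ∑ i ∈ Finset.range (P.natDegree + 1), C (P.coeff i) * F1 ^ i * Y1 ^ (P.natDegree - i)
  have hF1 : ∀ b : Option (Fin n) → K,
      eval b F1 = eval (fun i => b (some i) * b none * e⁻¹) f := by
    intro b
    have h1 : eval b F1 = eval (fun i => eval b
        (X (some i) * X none * C e⁻¹ : MvPolynomial (Option (Fin n)) K)) f := eval_aeval' _ f b
    rw [h1]
    simp only [map_mul, eval_X, eval_C]
  have hG : ∀ b : Option (Fin n) → K, w (eval b G) =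
      (max (w (eval (fun i => b (some i) * b none * e⁻¹) f))
        (w (g * e⁻¹ * b none))) ^ P.natDegree := by
    intro b
    rw [← val_form hP hd hc hroot]
    congr 1
    simp only [G, Y1, map_sum, map_mul, map_pow, eval_C, eval_X, hF1]
  obtain ⟨b₀, hb₀, hmin⟩ := hv.fintype G
  set M : Γ' := max (w (eval (fun i => b₀ (some i) * b₀ none * e⁻¹) f))
    (w (g * e⁻¹ * b₀ none)) with hM
  have hMg : w g < M := by
    rcases le_or_gt (w (b₀ none)) (w e) with h | h
    · refine lt_of_lt_of_le (hlow _ fun i => ?_) (le_max_left _ _)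
      rw [map_mul, map_mul, map_inv₀]
      have h1 : w (b₀ (some i)) ≤ 1 := hvw _ (hb₀ (some i))
      have h2 : w (b₀ none) * (w e)⁻¹ ≤ 1 := by
        rw [← div_eq_mul_inv]
        exact div_le_one_of_le₀ h zero_le
      rw [mul_assoc]
      exact mul_le_one' h1 h2
    · refine lt_of_lt_of_le ?_ (le_max_right _ _)
      rw [map_mul, map_mul, map_inv₀, mul_assoc]
      have h2 : 1 < (w e)⁻¹ * w (b₀ none) := by
        rw [mul_comm, ← div_eq_mul_inv]
        exact (one_lt_div₀ (zero_lt_iff.2 hwe0)).2 h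
      calc w g = w g * 1 := (mul_one _).symm
        _ < w g * ((w e)⁻¹ * w (b₀ none)) := mul_lt_mul_of_pos_left h2 hwg
  obtain ⟨y, hy⟩ : ∃ y : K, w y = M := by
    rcases max_choice (w (eval (fun i => b₀ (some i) * b₀ none * e⁻¹) f))
      (w (g * e⁻¹ * b₀ none)) with h | h
    · exact ⟨_, h.symm⟩
    · exact ⟨_, h.symm⟩
  -- the radius
  obtain ⟨r, hr1, hr2, hr3⟩ : ∃ r : K, 1 < w r ∧ w g * w r < M ∧ w e * w r < 1 := by
    have hy0 : y ≠ 0 := by
      rintro rfl
      rw [map_zero] at hy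
      rw [← hy] at hMg
      exact not_lt_zero hMg
    have hc1 : 1 < w (y / g) := by
      rw [map_div₀, hy]
      exact (one_lt_div₀ hwg).2 hMg
    have hc2 : 1 < w e⁻¹ := by
      rw [map_inv₀]
      exact (one_lt_inv₀ (zero_lt_iff.2 hwe0)).2 he1
    obtain ⟨c, hc0, hc1', hc2', hc3'⟩ : ∃ c : K, c ≠ 0 ∧ 1 < w c ∧ w c ≤ w (y / g) ∧
        w c ≤ w e⁻¹ := by
      rcases le_total (w (y / g)) (w e⁻¹) with h | h
      · exact ⟨y / g, div_ne_zero hy0 hg, hc1, le_rfl, h⟩
      · exact ⟨e⁻¹, inv_ne_zero he0, hc2, h, le_rfl⟩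
    obtain ⟨r, hr⟩ := hdiv c hc0 2 (by norm_num)
    have hr1 : 1 < w r := by
      by_contra hcon
      have h1 : w r ≤ 1 := not_lt.1 hcon
      have h2 : w r ^ 2 ≤ 1 := pow_le_one' h1 2
      rw [hr] at h2
      exact absurd hc1' (not_lt.2 h2)
    have hrc : w r < w c := by
      rw [← hr, pow_two]
      calc w r = w r * 1 := (mul_one _).symm
        _ < w r * w r := mul_lt_mul_of_pos_left hr1 (lt_trans zero_lt_one hr1)
    refine ⟨r, hr1, ?_, ?_⟩
    · have h1 : w r < w (y / g) := lt_of_lt_of_le hrc hc2'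
      have h2 : w g * w r < w g * w (y / g) := mul_lt_mul_of_pos_left h1 hwg
      rw [map_div₀, mul_div_cancel₀ _ hwg0, hy] at h2
      exact h2
    · have h1 : w r < w e⁻¹ := lt_of_lt_of_le hrc hc3'
      have h2 : w e * w r < w e * w e⁻¹ := mul_lt_mul_of_pos_left h1 (zero_lt_iff.2 hwe0)
      rw [map_inv₀, mul_inv_cancel₀ hwe0] at h2
      exact h2
  refine ⟨r, hr1, fun a ha => ?_⟩
  by_contra hcon
  have hfa : w (eval a f) ≤ w g := not_lt.1 hcon
  -- `m`
  obtain ⟨μ, hμ1, hμ2, hμ3⟩ : ∃ μ : K, 1 ≤ v μ ∧ w μ ≤ w r ∧ ∀ i, v (a i) ≤ v μ := by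
    by_cases hex : ∃ i, 1 < v (a i)
    · obtain ⟨i₀, hi₀⟩ := hex
      have : Nonempty (Fin n) := ⟨i₀⟩
      obtain ⟨j, hj⟩ := Finite.exists_max (fun i => v (a i))
      exact ⟨a j, hi₀.le.trans (hj i₀), ha j, hj⟩
    · push Not at hex
      exact ⟨1, by rw [map_one], by rw [map_one]; exact hr1.le, fun i => by
        rw [map_one]; exact hex i⟩
  have hvμ0 : v μ ≠ 0 := by
    intro h
    rw [h] at hμ1
    exact absurd hμ1 (not_le.2 zero_lt_one)
  have hμ0 : μ ≠ 0 := (Valuation.ne_zero_iff v).1 hvμ0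
  let b : Option (Fin n) → K := fun o => Option.rec (e * μ) (fun i => a i / μ) o
  have hb : ∀ o, v (b o) ≤ 1 := by
    intro o
    cases o with
    | none =>
      refine (v_lt_one_of_w_lt_one hvw ?_).le
      change w (e * μ) < 1
      rw [map_mul]
      exact lt_of_le_of_lt (mul_le_mul_right hμ2 _) hr3
    | some i =>
      change v (a i / μ) ≤ 1
      rw [map_div₀]
      exact div_le_one_of_le₀ (hμ3 i) zero_le
  have hbf : (fun i => b (some i) * b none * e⁻¹) = a := by
    funext i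
    change a i / μ * (e * μ) * e⁻¹ = a i
    field_simp
  have hbg : g * e⁻¹ * b none = g * μ := by
    change g * e⁻¹ * (e * μ) = g * μ
    field_simp
  have h1 := w_le_of_v_le hvw (hmin b hb)
  rw [hG, hG, hbf, hbg] at h1
  have h2 : max (w (eval a f)) (w (g * μ)) ≤ w g * w r := by
    refine max_le (hfa.trans ?_) ?_
    · calc w g = w g * 1 := (mul_one _).symm
        _ ≤ w g * w r := mul_le_mul_right hr1.le _
    · rw [map_mul]
      exact mul_le_mul_right hμ2 _
  have h3 : (max (w (eval a f)) (w (g * μ))) ^ P.natDegree < M ^ P.natDegree :=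
    pow_lt_pow_left₀ (lt_of_le_of_lt h2 hr2) zero_le hd.ne'
  exact absurd h1 (not_le.2 h3)

end Pool.Agent.Helper90.XT
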